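import Mathlib
import Pool.Agent.H302R10.Ded

/-!
# The restriction inequality for Heilbronn functions: reduction to simple groups

`Pool.Agent.H302R2.IsHeilbronn θ` says that `θ` is a class function on a group whose
restriction to every subgroup `H` has a nonnegative integer multiplicity against every linear
character of `H`.

`Pool.Agent.H302R10.Allowed r T` says that `T` is isomorphic to an alternating group `A_n` with
`r < (2^k - 1) * ⌊n / 2^k⌋` for some `k ≥ 2`, or that `T` is a nonabelian simple group whose outer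
automorphism group is a `p`-group for some prime `p`, and such that every Heilbronn function on `T`
of degree at most `r` is constant.

Let `G` be a finite group with a chain of normal subgroups `1 = N 0 ≤ N 1 ≤ … ≤ N l = G` in which
every factor `N (j+1) / N j` is abelian or a product of allowed groups, and let `θ` be a Heilbronn
function on `G` with `θ 1 = r`.  Then for every linear character `χ` of `G` and every subgroup `H`
the multiplicity of `χ` in `θ` is at most the multiplicity of `χ|_H` in `θ|_H`.
-/

set_option autoImplicit false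

universe u

theorem Pool.Agent.Results.MP_9fc8a5_nt.DedekindSimple.result
    (G : Type u) [Group G] [Finite G] (θ : G → ℂ) (hθ : Pool.Agent.H302R2.IsHeilbronn θ) (r : ℕ)
    (hr : θ 1 = r) (l : ℕ) (N : ℕ → Subgroup G) (h0 : N 0 = ⊥) (hl : N l = ⊤)
    (hnorm : ∀ j ≤ l, (N j).Normal) (hle : ∀ j < l, N j ≤ N (j + 1))
    (hlayer : ∀ j < l, (∀ a ∈ N (j + 1), ∀ b ∈ N (j + 1), a * b * a⁻¹ * b⁻¹ ∈ N j) ∨
      ∃ (m : ℕ) (T : Fin m → Type u) (_ : ∀ i, Group (T i)) (f : N (j + 1) →* (∀ i : Fin m, T i)),
        (∀ i, Pool.Agent.H302R10.Allowed r (T i)) ∧ Function.Surjective f ∧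
        f.ker = (N j).subgroupOf (N (j + 1)))
    (H : Subgroup G) (χ : G →* ℂˣ) (a b : ℕ)
    (ha : ∑ᶠ g : G, θ g * (((χ g)⁻¹ : ℂˣ) : ℂ) = a * Nat.card G)
    (hb : ∑ᶠ h : H, θ h * (((χ h)⁻¹ : ℂˣ) : ℂ) = b * Nat.card H) : a ≤ b :=
  Pool.Agent.H302R10.dedekind_simple G θ hθ r hr l N h0 hl hnorm hle hlayer H χ a b ha hb
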