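import Mathlib
import Pool.Agent.H302R2.DedekindTwo

/-!
# Restriction inequality for Heilbronn functions of degree at most two

`Pool.Agent.H302R2.IsHeilbronn θ` says that `θ` is a class function on a group whose
restriction to every subgroup `H` has a nonnegative integer multiplicity against every linear
character of `H`.

For such a function of degree at most two on an arbitrary finite group `G`, the multiplicity of a
linear character `ρ` of `G` in `θ` is at most the multiplicity of the restriction of `ρ` to `H` in
the restriction of `θ` to `H`, for every subgroup `H`.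
-/

set_option autoImplicit false

universe u

theorem Pool.Agent.Results.MP_9fc8a5_nt.HeilbronnOrderTwo.result
    (G : Type u) [Group G] [Finite G] (θ : G → ℂ) (hθ : Pool.Agent.H302R2.IsHeilbronn θ)
    (h2 : (θ 1).re ≤ 2) (H : Subgroup G) (ρ : G →* ℂˣ) (a b : ℕ)
    (ha : ∑ᶠ g : G, θ g * (((ρ g)⁻¹ : ℂˣ) : ℂ) = a * Nat.card G)
    (hb : ∑ᶠ h : H, θ h * (((ρ h)⁻¹ : ℂˣ) : ℂ) = b * Nat.card H) : a ≤ b :=
  hθ.mult_le h2 H ρ a b ha hb
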